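import Pool.Agent.Work.MP_a6d20f_an.Cycle

/-! Heavy-ball does not accelerate on scalar smooth strongly convex functions: for every
step size and momentum the worst-case asymptotic rate is at least `1 - 128 μ / L`. -/

namespace Pool.Agent.Results.MP_a6d20f_an.NoAcceleration

theorem result (μ L γ β : ℝ) (hμ : 0 < μ) (hL : μ < L) (hγ : 0 < γ) :
    ∃ (f : ℝ → ℝ) (xs : ℝ) (x : ℕ → ℝ), Differentiable ℝ f ∧
      (∀ a b : ℝ, a ≠ b →
        μ ≤ (deriv f a - deriv f b) / (a - b) ∧ (deriv f a - deriv f b) / (a - b) ≤ L) ∧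
      (∀ a : ℝ, f xs ≤ f a) ∧
      (∀ t : ℕ, x (t + 2) = (1 + β) * x (t + 1) - β * x t - γ * deriv f (x (t + 1))) ∧
      ((1 - 128 * (μ / L) : ℝ) : EReal) ≤
        Filter.limsup (fun t : ℕ => ((|x t - xs| ^ ((1 : ℝ) / (t : ℝ)) : ℝ) : EReal))
          Filter.atTop :=
  Pool.Agent.Work.MP_a6d20f_an.slow_main hμ hL hγ

end Pool.Agent.Results.MP_a6d20f_an.NoAcceleration
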