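import Pool.Agent.Work.MP_a6d20f_an.Hedge.Main

/-! The optimal worst-case rate of the heavy-ball method on smooth strongly convex functions:
`1 - (8 + o(1)) μ / L` in dimension at least two, between `1 - 16 μ / L` and
`1 - (8 - o(1)) μ / L` in dimension one. -/

namespace Pool.Agent.Results.MP_a6d20f_an.SharpConstant

open Pool.Agent.Work.MP_a6d20f_an.Hedge

theorem result (ε : ℝ) (hε : 0 < ε) : ∃ κ₀ : ℝ, 0 < κ₀ ∧ ∀ (d : ℕ) (μ L : ℝ),
    1 ≤ d → 0 < μ → μ < L → μ / L ≤ κ₀ →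
      ((1 - (if d = 1 then 16 else 8) * (μ / L) : ℝ) : EReal) ≤ best d μ L ∧
        best d μ L ≤ ((1 - (8 - ε) * (μ / L) : ℝ) : EReal) := by
  obtain ⟨κ₀, h0, h⟩ := upper (ε := min ε 1) (lt_min hε one_pos) (min_le_right _ _)
  refine ⟨min κ₀ (1 / 1000), lt_min h0 (by norm_num), fun d μ L hd hμ hL hk => ⟨?_, ?_⟩⟩
  · split_ifs with h1
    · exact best_ge_16 hd hμ hL
    · exact best_ge_8 (by omega) hμ hL (hk.trans (min_le_right _ _))
  · refine (h d μ L hμ hL (hk.trans (min_le_left _ _))).trans (EReal.coe_le_coe_iff.2 ?_)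
    have : 0 < μ / L := div_pos hμ (hμ.trans hL)
    nlinarith [min_le_left ε 1]

end Pool.Agent.Results.MP_a6d20f_an.SharpConstant
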